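import Pool.Agent.N906.QP.Stm

/-!
# Project QP (helper906), localized versions (MP_2a5a28_nt, MP_dc323a_nt)

The second order counts of `Pool/Agent/N906/QP/Stm.lean` with the additional condition that the point is in a given open subset of the
product of the completions at the infinite places: `|x - z w| < η` for every infinite place `w`. The upper bounds are the old ones; the lower
bound needs the lattice points in other discs.
-/

set_option autoImplicit false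

namespace Pool.Agent.N906.KG

open NumberField IsDedekindDomain Finset Filter Topology Pool.Agent.H691R3 Pool.Agent.W223.AK

section Statements

variable (K : Type) [Field K] [NumberField K]

/-- DSCG. As DSC (`Pool/Agent/N415/QP_DSC.lean`), for the discs with centre `R z_w` and radius `η R`. -/
def S_DSCG : Prop := ∀ (z : InfinitePlace K → ℂ) (η : ℝ), (∀ w, w.IsReal → (z w).im = 0) → 0 < η →
  ∃ c : ℝ, 0 < c ∧ ∀ (R : ℝ) (𝔞 : Ideal (𝓞 K)) (t : 𝓞 K), 1 ≤ R → 𝔞 ≠ ⊥ →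
    (Ideal.absNorm 𝔞 : ℝ) ≤ c * R ^ Module.finrank ℚ K →
    ∃ F : Finset (𝓞 K), (∀ a ∈ F, a - t ∈ 𝔞 ∧
      ∀ w : InfinitePlace K, ‖w.embedding (a : K) - (R : ℂ) * z w‖ ≤ η * R) ∧
      c * (R ^ Module.finrank ℚ K / Ideal.absNorm 𝔞) ≤ F.card

/-- LOWD. As LOWP (`Pool/Agent/N738/QP_LOWP.lean`), with `x = a / b` close to `z`: `a` from DSCG for the discs with centre `R z_w`, `b` for the
discs with centre `R`, both of radius `η' R` with `η'` small in terms of `z` and `η` (in particular `η' ≤ |z_w| / 2`, `η' ≤ 1/2`); the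
constants depend on `z` and `η`. -/
def S_LOWD : Prop := ∀ (q : ℕ) (α : Fin q → K × K) (S : Finset (Pr K)) (z : InfinitePlace K → ℂ) (η : ℝ),
  Al α → Gd S α → (∀ w, w.IsReal → (z w).im = 0) → (∀ w, z w ≠ 0) → 0 < η →
  ∃ c₁ c C z₀ : ℝ, 0 < c₁ ∧ 0 < c ∧ 0 < C ∧ ∀ (X : ℝ) (D : Fin q → Idl K), 0 ≤ X →
    (∀ l l', l ≠ l' → Cop (D l) (D l')) → (∀ l v, D l v ≠ 0 → v ∉ S ∧ z₀ ≤ Nv v) → rs D ≤ c₁ →
    ∃ F : Finset K, (∀ x ∈ F, Of α x ∧ hr (aff x) ≤ X ∧
      (∀ w : InfinitePlace K, ‖w.embedding x - z w‖ < η) ∧ ∃ P, IsP S α x P ∧ ∀ l, D l ≤ P l) ∧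
      c * Real.exp (2 * X - tl D) - C * Real.exp X ≤ F.card

/-- LOJD, from BASQ, CELLQ, LOWD, WINJ. As LOJ (`Pool/Agent/N432/QP_LOJ.lean`), with LOWD instead of LOWP. -/
def S_LOJD : Prop := ∀ (q : ℕ) (α : Fin q → K × K) (S : Finset (Pr K)) (κ : Fin q → ℝ) (ε C₀ : ℝ)
    (z : InfinitePlace K → ℂ) (η : ℝ), 1 ≤ q →
  Al α → Gd S α → (∀ l, 0 ≤ κ l) → 0 < ∑ l, κ l → ∑ l, κ l < 1 → 0 < ε → ε < 1 → 0 ≤ C₀ →
  (∀ w, w.IsReal → (z w).im = 0) → (∀ w, z w ≠ 0) → 0 < η →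
  ∃ X₀ : ℝ, 1 < X₀ ∧ ∀ X : ℝ, X₀ ≤ X → ∃ F : Finset K,
    (∀ x ∈ F, Of α x ∧ hr (aff x) ≤ X ∧ (∀ w : InfinitePlace K, ‖w.embedding x - z w‖ < η) ∧
      ∃ P, IsP S α x P ∧ ∀ l, rl (P l) + C₀ ≤ (1 - κ l) * hr (aff x)) ∧
    Real.exp ((2 - ∑ l, κ l) * X + (1 - ε) * ∑ l, √(8 * κ l * X / Real.log X)) ≤ F.card

end Statements

section Defs3

variable {K : Type} [Field K] [NumberField K]

/-- the point is near `z` at all infinite places -/
def Near (z : InfinitePlace K → ℂ) (η : ℝ) (P : Projectivization K (Fin 2 → K)) : Prop :=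
  P.rep 1 ≠ 0 ∧ ∀ w : InfinitePlace K, ‖w.embedding (P.rep 0 / P.rep 1) - z w‖ < η

end Defs3

/-- FINL, from BASQ, UPQ, UPJ, LOJD. The upper bounds (and finiteness) are those of `Pool/Agent/N340/QP_FINQ.lean` (sum law) and
`Pool/Agent/N401/QP_FINJ.lean` (joint law), since the sets are smaller; the lower bound from LOJD in the same way as there from LOJ (there
`κ_l = κ / q` for the sum law). If some `z w = 0` then first replace `z, η` by `z', η'` with `z' w ≠ 0`, `|z' w - z w| < η / 2`, `η' = η / 2` (for example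
`z' w = z w + η / 4` if `z w = 0`). -/
def S_FINL (K : Type) [Field K] [NumberField K] (q : ℕ) (κ₁ : ℝ) : Prop :=
  ∀ (T : Set (Pr K)) (α : Fin q → Fin 2 → K) (c : ℝ) (z : InfinitePlace K → ℂ) (η : ℝ), T.Finite → 2 ≤ q →
  (∀ i, α i ≠ 0) → (∀ i j, i ≠ j → α i 0 * α j 1 - α i 1 * α j 0 ≠ 0) →
  (∀ w, w.IsReal → (z w).im = 0) → 0 < η →
  (∀ κ : ℝ, 0 < κ → κ < κ₁ → κ < 1 →
    Tendsto (fun B : ℝ => (Real.log (({P | P ∈ QV T α κ c B ∧ Near z η P} :
        Set (Projectivization K (Fin 2 → K))).ncard : ℝ) - Module.finrank ℚ K * (2 - κ) * Real.log B) /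
      √(Real.log B / Real.log (Real.log B))) atTop (𝓝 √(8 * q * κ * Module.finrank ℚ K))) ∧
  (∀ κ : Fin q → ℝ, (∀ l, 0 ≤ κ l) → 0 < ∑ l, κ l → ∑ l, κ l < κ₁ → ∑ l, κ l < 1 →
    Tendsto (fun B : ℝ => (Real.log (({P | P ∈ JV T α κ c B ∧ Near z η P} :
        Set (Projectivization K (Fin 2 → K))).ncard : ℝ) -
        Module.finrank ℚ K * (2 - ∑ l, κ l) * Real.log B) /
      √(Real.log B / Real.log (Real.log B))) atTop (𝓝 (∑ l, √(8 * κ l * Module.finrank ℚ K))))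

end Pool.Agent.N906.KG
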