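import Pool.Agent.N906.KG.Grid
import Pool.Agent.N906.KG.Def
import Pool.Agent.N906.RS.Stm

/-!
# Project QP (helper906): second order counts for `q` points of the projective line over a number field

Targets (`K` a number field of degree `d`, `α_1..α_q` distinct points of `P¹(K)`, `T` a finite set of primes).
(Q) MP_4d5ce1_nt. For `0 < κ < 6/7` (`< 1` for `q = 3`) the number of the points `P` of height at most `B` with
`N_T(P) ≤ (q - κ) h(P) + c` is `B ^ (d (2 - κ)) exp ((√(8 q κ d) + o(1)) √(log B / log log B))`.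
(J) MP_7aad9f_nt (joint law of the radicals). For `κ_l ≥ 0`, `κ = ∑ κ_l < 6/7` (`< 1` for `q = 3`) the number of the points
`P` of height at most `B` with `N_{T,l}(P) ≤ (1 - κ_l) h(P) + c` for each `l` is
`B ^ (d (2 - κ)) exp ((∑_l √(8 κ_l d) + o(1)) √(log B / log log B))`.
(R) MP_2ec8a3_nt. abc triples ordered by their radical.

The statements of project KG are in `Pool/Agent/N906/KG/Stm.lean`, `KG/Grid.lean` (`Al`, `Gd`, `Of`, `IsP`, `tl`, `tr`, `gl`, `rs`, `Sq`,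
`Tp`); the grid versions of the assemblies (two points at once) are proved in `Pool/Agent/N645/KG_UPG.lean`,
`Pool/Agent/N499/KG_LOG.lean`; the case of the three points `0, ∞, -1` in `Pool/Agent/N776/RS_UP.lean`, `Pool/Agent/N427/RS_LO.lean`
(statements with proofs in `Pool/Agent/N906/RS/Stm.lean`). `len a`, `rl a`: logarithms of the norms of an ideal and of its
radical.
-/

set_option autoImplicit false

namespace Pool.Agent.N906.KG

open NumberField IsDedekindDomain Finset Filter Topology Pool.Agent.H691R3 Pool.Agent.W223.AK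
open Pool.Agent.N906.NT (Cx cst)

section Statements

variable (K : Type) [Field K] [NumberField K]

/-- BIGQ. The known exponent for `q` points, for `κ ≤ κ₁`. It is proved for `2 ≤ q`, `κ₁ = 6/7` and for `q = 3`, `κ₁ = 1` in the
starting library: `exact_part` in `Pool/Agent/Results/MP_4d5ce1_nt/ExceptionalSetExponents.lean` (private; `hup` there, i.e.
`Pool.Agent.W221.Exc.upper`, `Pool.Agent.H691R3.sel_all`, `Pool.Agent.W221.Exc.sel_below_one`, `sel_three_one`), with `T = S`; `d` times the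
counting function there is `NTc S α x = ∑_{v ∉ S} ∑_l min (lam v) (log Nv) = tr P` for `IsP S α x P` (the `P l` are
pairwise coprime by BASQ, proved: `Pool.Agent.N954.KG.basq`). -/
def S_BIGQ (q : ℕ) (κ₁ : ℝ) : Prop := ∀ (α : Fin q → K × K) (S : Finset (Pr K)) (κ δ c : ℝ),
  Al α → Gd S α → 0 ≤ κ → κ ≤ κ₁ → 0 < δ → ∃ D : ℝ, 0 < D ∧ ∀ (X : ℝ) (F : Finset K), 0 ≤ X →
    (∀ x ∈ F, Of α x ∧ hr (aff x) ≤ X ∧
      ∃ P, IsP S α x P ∧ tr P ≤ ((q : ℝ) - κ) * hr (aff x) + c) →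
    (F.card : ℝ) ≤ D * Real.exp ((2 - κ + δ) * X)

/-- UPU (upper bound, uniform in `κ = G / X`), from BASQ, CELLQ, RANK, BIGQ (`κ₁ ≤ 1`). Compare `Pool/Agent/N776/RS_UP.lean` and
the proof text of `S_UP` in `Pool/Agent/N906/RS/Stm.lean`. Proof. Choose a finite grid of numbers `κ'` in `[0, κ₁]` with step
`< δ / 8`. For given `X, G` there is `κ'` in the grid with `G + δ X / 4 ≤ κ' X ≤ G + δ X / 2`. By BIGQ (constants maximal over the
grid) the `x` with `tr P ≤ (q - κ') hr` are at most `D exp ((2 - κ' + δ / 8) X)`, negligible. For the others let `D` be the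
squareful part of `P` (`D l v = P l v` if `P l v ≥ 2`, and `0` otherwise), so `gl D = tl P - tr P`, `tl D ≤ 2 gl D`. By BASQ
`tl P = q hr - ∑_l ∑_{v ∈ Spl S} lam v (aff x) (α l) + O(1)`. For `v ∈ Spl S` let `τ v` be the index with the largest
`lam v (aff x) (α l)` (the others are `≤ C`), `k v = ⌊lam v (aff x) (α (τ v)) + loss v⌋₊`. Then `G - C ≤ gl D + ∑ k v ≤ κ' X + C`, so
`tl D + ∑ k ≤ 2 κ' X + C ≤ 2 X + C`, and by CELLQ there are for given `D, τ, k` at most `C exp (2 X - tl D - ∑ k)` points `x`. The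
sum over the `D` with `gl D ≥ G - C - ∑ k` is by RANK (complex of the sets with at most one element, `r = 1`, `t = q`, `Z = G`) at
most `C exp (2 X - G + (1 + ε') cst 1 q (G / log G)^(1/2))`, `cst 1 q = √(8 q)`; and there are at most `(C X + C) ^ |Spl S|`
pairs `(τ, k)`. -/
def S_UPU (q : ℕ) (κ₁ : ℝ) : Prop := ∀ (α : Fin q → K × K) (S : Finset (Pr K)) (δ ε : ℝ),
  Al α → Gd S α → 0 < δ → 0 < ε → ∃ X₀ : ℝ, 1 < X₀ ∧ ∀ (X G : ℝ) (F : Finset K), X₀ ≤ X →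
    δ * X ≤ G → G ≤ (κ₁ - δ) * X →
    (∀ x ∈ F, Of α x ∧ X - 1 < hr (aff x) ∧ hr (aff x) ≤ X ∧
      ∃ P, IsP S α x P ∧ tr P ≤ q * hr (aff x) - G) →
    (F.card : ℝ) ≤ Real.exp (2 * X - G + (1 + ε) * √(8 * q * G / Real.log X))

/-- UPQ, from UPU (and CELLQ with `D = 0`, `s = 0` for `hr ≤ m₀`): cut according to `m - 1 < hr (aff x) ≤ m` (for the real numbers
`m = X, X - 1, ...`), `G = κ (m - 1) - C₀`; the bound `(2 - κ) m + √(8 q κ m / log m)` is increasing in `m`. -/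
def S_UPQ (q : ℕ) (κ₁ : ℝ) : Prop := ∀ (α : Fin q → K × K) (S : Finset (Pr K)) (κ ε C₀ : ℝ),
  Al α → Gd S α → 0 < κ → κ < κ₁ → 0 < ε → 0 ≤ C₀ → ∃ X₀ : ℝ, 1 < X₀ ∧
  ∀ (X : ℝ) (F : Finset K), X₀ ≤ X →
    (∀ x ∈ F, Of α x ∧ hr (aff x) ≤ X ∧
      ∃ P, IsP S α x P ∧ tr P ≤ ((q : ℝ) - κ) * hr (aff x) + C₀) →
    (F.card : ℝ) ≤ Real.exp ((2 - κ) * X + (1 + ε) * √(8 * q * κ * X / Real.log X))

/-- UPJ (joint upper bound), from BASQ, CELLQ, RANK, BIGQ (`κ₁ ≤ 1`), `κ = ∑ κ l`. As UPU. It is enough to bound the number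
of the `x` with `m - 1 < hr (aff x) ≤ m`, `m ≤ X + 1`. By BIGQ with `κ' = κ + δ₀ ≤ κ₁` the `x` with `tr P ≤ (q - κ - δ₀) hr` are
negligible (`tr P = ∑_l rl (P l)`, the `P l` are pairwise coprime). For the others `D`, `τ`, `k` as in UPU,
`tl D + ∑ k ≤ 2 (κ + δ₀) m + C ≤ 2 m + C`, so by CELLQ at most `C exp (2 m - tl D - ∑ k)` points `x` for given `D, τ, k`. Moreover
`hr (aff x) = len (P l) + ∑_{v ∈ Spl S} lam v (aff x) (α l) + O(1)` for EACH `l` (`sum_lam`; BASQ only has the sum over `l`), so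
`len (D l) - rl (D l) = len (P l) - rl (P l) ≥ κ_l m - ∑_{v : τ v = l} k v - C =: T_l`. The sum of `exp (- tl D)` over all `D` with
these conditions is at most the product over `l` of the sums of `exp (- len (D l))`, by RANK (with `n = 1`,
`Δ = {∅, {0}}`, `r = t = 1`, `Z = max (κ_l m) (δ' m)`, `T = max T_l 0`) at most `exp (- T_l + (1 + ε') √(8 Z / log Z))`. -/
def S_UPJ (q : ℕ) (κ₁ : ℝ) : Prop := ∀ (α : Fin q → K × K) (S : Finset (Pr K)) (κ : Fin q → ℝ) (ε C₀ : ℝ),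
  Al α → Gd S α → (∀ l, 0 ≤ κ l) → 0 < ∑ l, κ l → ∑ l, κ l < κ₁ → 0 < ε → 0 ≤ C₀ → ∃ X₀ : ℝ, 1 < X₀ ∧
  ∀ (X : ℝ) (F : Finset K), X₀ ≤ X →
    (∀ x ∈ F, Of α x ∧ hr (aff x) ≤ X ∧
      ∃ P, IsP S α x P ∧ ∀ l, rl (P l) ≤ (1 - κ l) * hr (aff x) + C₀) →
    (F.card : ℝ) ≤ Real.exp ((2 - ∑ l, κ l) * X + (1 + ε) * ∑ l, √(8 * κ l * X / Real.log X))

/-- GLOWJ (generating function with different parameters `β_i u`, pairwise coprime ideals). As GLOWK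
(`Pool/Agent/N814/KG_GLOWK.lean`) or `Pool/Agent/N42/RSA.lean`, `RS_ELOW`, `N438/RS_GLOW.lean`. Primes `u^(-(1+ε)) ≤ Nv ≤ exp (δ / u)`; for each
of them nothing, or an index `i` and an exponent `e ≥ 2` (`e ≤ E` large) for `D i`; the local sum is
`≥ 1 + (1 - ε'') ∑_i 1 / (Nv (Nv^(β_i u) - 1))`, all these numbers are small, so the logarithm is
`≥ (1 - 2 ε'') ∑_i 1 / (Nv (Nv^(β_i u) - 1)) ≥ (1 - 3 ε'') ∑_i 1 / (β_i u Nv log Nv)` for `δ` small, and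
`∑_v 1 / (Nv log Nv) ≥ (1 - ε''') / log (u^(-(1+ε))) - u / δ`. -/
def S_GLOWJ : Prop := ∀ (n : ℕ) (β : Fin n → ℝ) (ε : ℝ), (∀ i, 0 < β i) → 0 < ε → ε < 1 / 3 →
  ∃ u₀ : ℝ, 0 < u₀ ∧ u₀ < 1 / 2 ∧ ∀ u : ℝ, 0 < u → u < u₀ → ∃ F : Finset (Fin n → Idl K),
    (∀ D ∈ F, (∀ i j, i ≠ j → Cop (D i) (D j)) ∧ Sq D ∧ ∀ v ∈ sp D, u ^ (-(1 + ε)) ≤ Nv v) ∧
    Real.exp ((1 - 3 * ε) * ∑ i, 1 / (β i * (u * Real.log (1 / u)))) ≤
      ∑ D ∈ F, Real.exp (-(∑ i, β i * u * (len (D i) - rl (D i))) - tr D)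

/-- WINJ (window with prescribed gains of the single ideals), from GLOWJ and GUPK. First let all `ζ i > 0` (those with
`ζ i = 0` get `D i = 0`). Take `β i = 1 / √(ζ i)` and `u = √(2 / ((1 - ε') Z log Z))`, so `u_i = β_i u` satisfies
`1 / (u_i log (1/u_i)) ~ u_i (1 - ε') ζ_i Z`, and `u_i ζ_i Z + 1 / (u_i log (1/u_i)) ~ √(8 ζ_i Z / log Z)`. Remove from the sum of
GLOWJ, as in the proof of WINK (`Pool/Agent/N700/KG_WINK.lean`; and the text of `S_WIN` in `N906/RS/Stm.lean`): for each `i` the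
`D` with `len (D i) - rl (D i) > ζ_i Z` (tilt `u_i` to `(1 - η) u_i` for this `i` only) and those with
`len (D i) - rl (D i) < (1 - ε) (1 - ε') ζ_i Z` (tilt to `(1 + η) u_i`); those with `tr D > ε Z` (`θ = 1/2`); those with more than `C / u`
primes (`μ = 2`); the upper bounds for the tilted sums are products over `i` of GUPK for one ideal (`n = 1`, `Δ = {∅, {0}}`,
`r = t = 1`, the coprimality is dropped). The primes have norm `≥ u^(-(1+ε'')) > √Z`. -/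
def S_WINJ : Prop := ∀ (n : ℕ) (ζ : Fin n → ℝ) (ε c : ℝ), (∀ i, 0 ≤ ζ i) → 0 < ε → ε < 1 → 0 < c →
  ∃ Z₀ : ℝ, 1 < Z₀ ∧ ∀ Z : ℝ, Z₀ ≤ Z → ∃ F : Finset (Fin n → Idl K),
    (∀ D ∈ F, (∀ i j, i ≠ j → Cop (D i) (D j)) ∧ Sq D ∧ (∀ v ∈ sp D, √Z < Nv v) ∧
      (∀ i, len (D i) - rl (D i) ≤ ζ i * Z) ∧ tr D ≤ ε * Z ∧ rs D ≤ c) ∧
    Real.exp ((1 - ε) * ∑ i, √(8 * ζ i * Z / Real.log Z)) ≤ ∑ D ∈ F, Real.exp (-tr D)

/-- DSC. Elements of a coset of an ideal in the product of the discs with centre `3R/4` and radius `R/4`, as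
`Pool.Agent.N691.RS.coset` (`S_COSET` of project RS), with discs instead of annuli (`coset0` there may already give this). -/
def S_DSC : Prop := ∃ c : ℝ, 0 < c ∧ ∀ (R : ℝ) (𝔞 : Ideal (𝓞 K)) (t : 𝓞 K), 1 ≤ R → 𝔞 ≠ ⊥ →
    (Ideal.absNorm 𝔞 : ℝ) ≤ c * R ^ Module.finrank ℚ K →
    ∃ F : Finset (𝓞 K), (∀ a ∈ F, a - t ∈ 𝔞 ∧
      ∀ w : InfinitePlace K, ‖w.embedding (a : K) - (3 * R / 4 : ℝ)‖ ≤ R / 4) ∧
      c * (R ^ Module.finrank ℚ K / Ideal.absNorm 𝔞) ≤ F.card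

/-- LOWP. `S_LOWQ` with one more property: `x = a / b` has positive real part at all infinite places. The proof is that of
`Pool/Agent/N346/KG_LOWQ.lean` with DSC instead of `RS.S_COSET` (`a` and `b` in the discs, so `R/2 ≤ |a|_w, |b|_w ≤ R`, and
`|arg a|, |arg b| < π / 4`). -/
def S_LOWP : Prop := ∀ (q : ℕ) (α : Fin q → K × K) (S : Finset (Pr K)), Al α → Gd S α →
  ∃ c₁ c C z₀ : ℝ, 0 < c₁ ∧ 0 < c ∧ 0 < C ∧ ∀ (X : ℝ) (D : Fin q → Idl K), 0 ≤ X →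
    (∀ l l', l ≠ l' → Cop (D l) (D l')) → (∀ l v, D l v ≠ 0 → v ∉ S ∧ z₀ ≤ Nv v) → rs D ≤ c₁ →
    ∃ F : Finset K, (∀ x ∈ F, Of α x ∧ hr (aff x) ≤ X ∧ (∀ w : InfinitePlace K, 0 < (w.embedding x).re) ∧
      ∃ P, IsP S α x P ∧ ∀ l, D l ≤ P l) ∧
      c * Real.exp (2 * X - tl D) - C * Real.exp X ≤ F.card

/-- LOJ (joint lower bound), from BASQ, CELLQ, LOWP, WINJ and `RS.S_CNT K`. `κ = ∑ κ l < 1`. Compare
`Pool/Agent/N427/RS_LO.lean`, `Pool/Agent/N499/KG_LOG.lean`. Choose different primes `𝔮_l ∉ S` of large norm, `∑ 1 / N𝔮_l ≤ c₁ / 2`, and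
`T_l = κ_l X + C₁`, such that `len (P l) - rl (P l) ≥ T_l` implies `rl (P l) + C₀ ≤ (1 - κ_l) hr (aff x)` for `hr (aff x) ≤ X` (note
`len (P l) ≤ hr (aff x) + C` by `sum_lam`, `lam_ge`). `F₀` from WINJ with `ζ = κ`, `Z = X`, a small `ε'` and `c = c₁ / 2`. For
`D ∈ F₀` let `j_l ≥ 1` be minimal with `len (D l) - rl (D l) + j_l log N𝔮_l ≥ T_l`, and `D' l` = `D l` with the exponent `j_l + 1` of
`𝔮_l`; `tl D' ≤ ∑ T_l + 2 ∑ log N𝔮_l + tr D ≤ (κ + ε') X + C < X - C`. LOWP gives at least `(c/2) exp (2 X - tl D')` points `x`.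
Remove those such that for some `v` with `Nv > √X` and some `l`: `v ∈ sp D`, `P l v ≥ D l v + 1` (CELLQ with `s = 0`: at most
`C rs D exp (2 X - tl D') + C |sp D|`; if `D l v = 0` then some other `D l' v ≠ 0` and the `P l` are pairwise coprime), or
`v ∉ sp D`, `P l v ≥ 2` (at most `C exp (2 X - tl D') / √X + C exp X`, as `2 log Nv ≤ hr (aff x) + C`). The remaining sets for
different `D ∈ F₀` are disjoint. Total at least `∑ c' exp (2 X - ∑ T_l - tr D)`. -/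
def S_LOJ : Prop := ∀ (q : ℕ) (α : Fin q → K × K) (S : Finset (Pr K)) (κ : Fin q → ℝ) (ε C₀ : ℝ), 1 ≤ q →
  Al α → Gd S α → (∀ l, 0 ≤ κ l) → 0 < ∑ l, κ l → ∑ l, κ l < 1 → 0 < ε → ε < 1 → 0 ≤ C₀ →
  ∃ X₀ : ℝ, 1 < X₀ ∧ ∀ X : ℝ, X₀ ≤ X → ∃ F : Finset K,
    (∀ x ∈ F, Of α x ∧ hr (aff x) ≤ X ∧ (∀ w : InfinitePlace K, 0 < (w.embedding x).re) ∧
      ∃ P, IsP S α x P ∧ ∀ l, rl (P l) + C₀ ≤ (1 - κ l) * hr (aff x)) ∧
    Real.exp ((2 - ∑ l, κ l) * X + (1 - ε) * ∑ l, √(8 * κ l * X / Real.log X)) ≤ F.card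

end Statements

section Defs2

variable {K : Type} [Field K] [NumberField K]

/-- the truncated counting function of the point `a` at `P`, for the primes outside `T` -/
noncomputable def ncl (T : Set (Pr K)) (a : Fin 2 → K) (P : Projectivization K (Fin 2 → K)) : ℝ :=
  ∑ᶠ (v : HeightOneSpectrum (𝓞 K)) (_ : v ∉ T),
    min (lv v a P) (Real.log (Ideal.absNorm v.asIdeal : ℝ) / (Module.finrank ℚ K : ℝ))

/-- the points `P` different from the `α l`, of height at most `B`, with `N_T(P) ≤ (q - κ) h(P) + c` -/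
def QV (T : Set (Pr K)) {q : ℕ} (α : Fin q → Fin 2 → K) (κ c B : ℝ) :
    Set (Projectivization K (Fin 2 → K)) :=
  {P | Off1 α P ∧ Real.exp (hh P) ≤ B ∧ ∑ l, ncl T (α l) P ≤ ((q : ℝ) - κ) * hh P + c}

/-- the points `P` different from the `α l`, of height at most `B`, with `N_{T,l}(P) ≤ (1 - κ l) h(P) + c` for all `l` -/
def JV (T : Set (Pr K)) {q : ℕ} (α : Fin q → Fin 2 → K) (κ : Fin q → ℝ) (c B : ℝ) :
    Set (Projectivization K (Fin 2 → K)) :=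
  {P | Off1 α P ∧ Real.exp (hh P) ≤ B ∧ ∀ l, ncl T (α l) P ≤ (1 - κ l) * hh P + c}

/-- the abc triples with prescribed sizes of the three radicals -/
def Tri (A : Fin 3 → ℝ) (X : ℝ) : Set (ℕ × ℕ × ℕ) :=
  {t | 0 < t.1 ∧ 0 < t.2.1 ∧ Nat.Coprime t.1 t.2.1 ∧ t.1 + t.2.1 = t.2.2 ∧ (t.2.2 : ℝ) ≤ X ∧
    ((∏ p ∈ t.1.primeFactors, p : ℕ) : ℝ) ≤ (t.2.2 : ℝ) ^ (A 0) ∧
    ((∏ p ∈ t.2.1.primeFactors, p : ℕ) : ℝ) ≤ (t.2.2 : ℝ) ^ (A 1) ∧
    ((∏ p ∈ t.2.2.primeFactors, p : ℕ) : ℝ) ≤ (t.2.2 : ℝ) ^ (A 2)}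

/-- the abc triples with `rad (abc) ≤ X`, `c ≤ Z` and `rad (abc) ^ M ≤ c` -/
def Rad3 (M X Z : ℝ) : Set (ℕ × ℕ × ℕ) :=
  {t | 0 < t.1 ∧ 0 < t.2.1 ∧ Nat.Coprime t.1 t.2.1 ∧ t.1 + t.2.1 = t.2.2 ∧ (t.2.2 : ℝ) ≤ Z ∧
    ((∏ p ∈ (t.1 * t.2.1 * t.2.2).primeFactors, p : ℕ) : ℝ) ≤ X ∧
    ((∏ p ∈ (t.1 * t.2.1 * t.2.2).primeFactors, p : ℕ) : ℝ) ^ M ≤ (t.2.2 : ℝ)}

/-- the same without a condition on the size of `c` -/
def Rad3a (M X : ℝ) : Set (ℕ × ℕ × ℕ) :=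
  {t | 0 < t.1 ∧ 0 < t.2.1 ∧ Nat.Coprime t.1 t.2.1 ∧ t.1 + t.2.1 = t.2.2 ∧
    ((∏ p ∈ (t.1 * t.2.1 * t.2.2).primeFactors, p : ℕ) : ℝ) ≤ X ∧
    ((∏ p ∈ (t.1 * t.2.1 * t.2.2).primeFactors, p : ℕ) : ℝ) ^ M ≤ (t.2.2 : ℝ)}

end Defs2

section Finals

variable (K : Type) [Field K] [NumberField K]

/-- FINQ (final theorem (Q)), from BASQ, UPQ (for this `q`, `κ₁`) and LOJ (with `κ_l = κ / q`, as `∑_l √(8 κ/q X / log X) =
√(8 q κ X / log X)`). `X = d log B`. Choose `S` good for `α` (BASQ (1)) containing `T`. Translation of heights and counting functions,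
finiteness and limits as in `Pool/Agent/N170/KG_FING.lean` (grids; there `P.rep 1 ≠ 0`, `x = P.rep 0 / P.rep 1`, `hr (aff x) = logHeight P.rep`).
`d ∑_l ncl T (α l) P` and `tr P'` (`IsP S α x P'`) differ by at most `q ∑_{v ∈ S} log Nv`. The point with `P.rep 1 = 0` is one point. -/
def S_FINQ (q : ℕ) (κ₁ : ℝ) : Prop := ∀ (T : Set (Pr K)) (α : Fin q → Fin 2 → K) (κ c : ℝ), T.Finite → 2 ≤ q →
  (∀ i, α i ≠ 0) → (∀ i j, i ≠ j → α i 0 * α j 1 - α i 1 * α j 0 ≠ 0) → 0 < κ → κ < κ₁ → κ < 1 →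
  (∀ B : ℝ, (QV T α κ c B).Finite) ∧
  Tendsto (fun B : ℝ => (Real.log ((QV T α κ c B).ncard : ℝ) - Module.finrank ℚ K * (2 - κ) * Real.log B) /
    √(Real.log B / Real.log (Real.log B))) atTop (𝓝 √(8 * q * κ * Module.finrank ℚ K))

/-- FINJ (final theorem (J) over `K`), from BASQ, UPJ and LOJ, in the same way. -/
def S_FINJ (q : ℕ) (κ₁ : ℝ) : Prop := ∀ (T : Set (Pr K)) (α : Fin q → Fin 2 → K) (κ : Fin q → ℝ) (c : ℝ),
  T.Finite → 2 ≤ q → (∀ i, α i ≠ 0) → (∀ i j, i ≠ j → α i 0 * α j 1 - α i 1 * α j 0 ≠ 0) →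
  (∀ l, 0 ≤ κ l) → 0 < ∑ l, κ l → ∑ l, κ l < κ₁ → ∑ l, κ l < 1 →
  (∀ B : ℝ, (JV T α κ c B).Finite) ∧
  Tendsto (fun B : ℝ => (Real.log ((JV T α κ c B).ncard : ℝ) -
      Module.finrank ℚ K * (2 - ∑ l, κ l) * Real.log B) /
    √(Real.log B / Real.log (Real.log B))) atTop (𝓝 (∑ l, √(8 * κ l * Module.finrank ℚ K)))

end Finals

/-- FINT (final theorem (J) for abc triples), from UPJ and LOJ for `K = ℚ`, `q = 3`, `κ₁ = 1`, `α = (0, ∞, -1)`, i.e. `(0,1), (1,0), (-1,1)`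
(`Gd ∅ α`), `κ_l = 1 - A l`, `X = log X`. A triple `(a, b, c)` is `x = a / b`, `hr (aff x) = log max(a, b)` (between `log (c / 2)` and
`log c`), `IsP ∅ α x P` with `P 0, P 1, P 2` the exponents of `a`, `b`, `c`; `rl (P l)` the logarithms of the radicals. LOJ gives
`x > 0`, so `x = a / b` with coprime positive `a`, `b`. Compare `Pool/Agent/N906/RS/Fin.lean`. -/
def S_FINT : Prop := ∀ A : Fin 3 → ℝ, (∀ l, 0 < A l) → (∀ l, A l ≤ 1) → 2 < ∑ l, A l → ∑ l, A l < 3 →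
  (∀ X : ℝ, (Tri A X).Finite) ∧
  Tendsto (fun X : ℝ => (Real.log ((Tri A X).ncard : ℝ) - (∑ l, A l - 1) * Real.log X) /
    √(Real.log X / Real.log (Real.log X))) atTop (𝓝 (∑ l, √(8 * (1 - A l))))

/-- FINR (final theorem (R)), from UPU for `K = ℚ`, `q = 3`, `κ₁ = 1` (points `0, ∞, -1` as in FINT), `RS.S_LO ℚ` (proved; with
`κ = 3 - 1/M`, at `X' = M log X`) and the known exponents. `Y = log X`. Upper bound: cut the triples according to `m - 1 < log max(a,b) ≤ m`.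
(1) `m ≤ M Y + 1`: `rad ≤ c^(1/M)`, so `G = (3 - 1/M) m - C`, and `exp (2 m - G + ...)` is increasing in `m`, at `m = M Y + 1` it is
`exp ((1 - M) Y + (1 + ε) √(8 · 3 (3 M - 1) Y / log Y))`. (2) `M Y + 1 < m ≤ (1/2 - δ) Y`: `G = 3 m - Y - C`, the bound
`exp (2 m - G + ...) = exp (Y - m + (1 + ε) √(24 (3 m - Y) / log m))` is decreasing in `m` (as `Y` is large). (3) `m > (1/2 - δ) Y`, `c ≤ X ^ A`:
the library has for all `0 < λ` the bound `O(H^(Fx λ + ε))` for the number of the triples with `c ≤ H`, `rad ≤ c^λ` (`count_Fx`,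
`count_FxB` in `Pool/Agent/W221/ABC/Main7.lean`, `Fx` in `Fx.lean`), and for `H = exp m`, `λ = Y / m` (a finite grid of values `λ`) one has
`Fx λ ≤ 4 λ / 7` for `λ ≤ 2` and `Fx λ / λ ≤ 4/7 + O(δ)` for `λ ≤ 2 + O(δ)`; so these are at most `X^(4/7 + ε)`, and `1 - M > 4/7`. (4) All heights, for `M`
close to `1/3`: `Pool/Agent/Results/MP_2ec8a3_nt/ExceptionExponent.lean` (`Pool.Agent.Y911.AB.main`): for `M₁ ≤ M₀` there are only
`X^(1 - M₁ + o(1))` triples with `rad ≤ X`, `c ≥ rad ^ M₁` of whatever size; so for `M < M₁` one has only to consider the triples with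
`c < rad ^ M₁ ≤ X ^ M₁`. -/
def S_FINR : Prop :=
  (∀ M A : ℝ, 1 / 3 < M → M < 3 / 7 → 1 ≤ A →
    (∀ X : ℝ, (Rad3 M X (X ^ A)).Finite) ∧
    Tendsto (fun X : ℝ => (Real.log ((Rad3 M X (X ^ A)).ncard : ℝ) - (1 - M) * Real.log X) /
      √(Real.log X / Real.log (Real.log X))) atTop (𝓝 √(24 * (3 * M - 1)))) ∧
  ∃ M₀ : ℝ, 1 / 3 < M₀ ∧ ∀ M : ℝ, 1 / 3 < M → M < M₀ →
    (∀ X : ℝ, (Rad3a M X).Finite) ∧
    Tendsto (fun X : ℝ => (Real.log ((Rad3a M X).ncard : ℝ) - (1 - M) * Real.log X) /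
      √(Real.log X / Real.log (Real.log X))) atTop (𝓝 √(24 * (3 * M - 1)))

end Pool.Agent.N906.KG
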