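import Pool.Agent.N906.QP.Stm

/-!
# Project QP (helper906): `q` points over a number field, ordered by the counting function (MP_f5a5f7_nt)
-/

set_option autoImplicit false

namespace Pool.Agent.N906.KG

open NumberField IsDedekindDomain Finset Filter Topology Pool.Agent.H691R3 Pool.Agent.W223.AK

/-- the points `x` different from the `α l` with `N_T(x) ≤ log X` and `M N_T(x) < h(x) ≤ M' N_T(x)` -/
def RV {K : Type} [Field K] [NumberField K] (T : Set (Pr K)) {q : ℕ} (α : Fin q → Fin 2 → K) (M M' X : ℝ) :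
    Set (Projectivization K (Fin 2 → K)) :=
  {P | Off1 α P ∧ ∑ l, ncl T (α l) P ≤ Real.log X ∧ M * ∑ l, ncl T (α l) P < hh P ∧
    hh P ≤ M' * ∑ l, ncl T (α l) P}

/-- FINRQ, from BASQ, CELLQ, UPU (uniform upper bound), UPQ and LOJ. `d = [K : ℚ]`, `L = d log X`, `κ = q - 1/M`, `κ' = q - 1/M' < κ₁`.
Translation of heights and counting functions as in `Pool/Agent/N340/QP_FINQ.lean` (`S` good for `α`, containing `T`; `d N_T(P)` and `tr P'`
(`IsP S α x P'`) differ by at most a constant; the point with `P.rep 1 = 0` is one point). Finiteness: `h ≤ M' log X` (for `log X < 0` the set is empty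
or use `QV_finite`-like arguments: `N_T ≥ 0`).
Upper bound. Cut according to `m - 1 < hr (aff x) ≤ m` (`m` a natural number `≤ M' L + 1`; the bounded `m` by CELLQ with `D = 0`).
(1) `m ≤ M L + 1`: `tr ≤ hr / M + C ≤ q hr - G`, `G = (q - 1/M) (m - 1) - C`; UPU gives
`exp (2 m - G + (1 + ε) √(8 q G / log m))`, increasing in `m`, at `m = M L + 1` it is `exp ((1 - (q-2) M) L + (1 + ε) √(8 q (q M - 1) L / log L) + C)`.
(2) `M L + 1 < m ≤ M' L + 1`: `tr ≤ L + C ≤ q hr - G`, `G = q (m - 1) - L - C` (between `δ m` and `(κ₁ - δ) m`); the bound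
`exp (2 m - G + (1 + ε) √(8 q G / log m)) = exp (L + C - (q - 2) m + ...)` for `q ≥ 3` is decreasing in `m` for large `L`, the maximum is at `m = M L`
as in (1). Compare `Pool/Agent/N521/QP_FINR.lean` (`q = 3`, `K = ℚ`), where the same is done (files `N521/QP/An.lean`).
Lower bound. LOJ with `κ_l = κ / q`, `X = M L`, and a large `C₀`: `tr P' + q C₀ ≤ (q - κ) hr = hr / M`, so `M N_T < h` and `N_T ≤ log X`. Remove those
with `h > M' N_T`: `tr P' ≤ hr / M' + C`, `hr ≤ M L`; UPQ with `κ'`: at most `exp ((2 - κ') M L + o(L))`, negligible. -/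
def S_FINRQ (K : Type) [Field K] [NumberField K] (q : ℕ) (κ₁ : ℝ) : Prop :=
  ∀ (T : Set (Pr K)) (α : Fin q → Fin 2 → K) (M M' : ℝ), T.Finite → 3 ≤ q →
  (∀ i, α i ≠ 0) → (∀ i j, i ≠ j → α i 0 * α j 1 - α i 1 * α j 0 ≠ 0) →
  1 / (q : ℝ) < M → M < M' → (q : ℝ) - 1 / M' < κ₁ →
  (∀ X : ℝ, (RV T α M M' X).Finite) ∧
  Tendsto (fun X : ℝ => (Real.log ((RV T α M M' X).ncard : ℝ) -
      Module.finrank ℚ K * (1 - ((q : ℝ) - 2) * M) * Real.log X) /
    √(Real.log X / Real.log (Real.log X))) atTop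
    (𝓝 √(8 * q * ((q : ℝ) * M - 1) * Module.finrank ℚ K))

end Pool.Agent.N906.KG
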