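import Pool.Agent.N170.KG_FING
import Pool.Agent.N906.QP.Stm
import Pool.Agent.N906.QP.StmR

/-!
# Project QP: the points `0, ∞, 1`; translation to elements `x` of `K`
-/

set_option autoImplicit false

namespace Pool.Agent.N906.QP.Aff

open NumberField IsDedekindDomain Finset Filter Topology Pool.Agent.H691R3 Pool.Agent.W223.AK
open Pool.Agent.N906.KG Pool.Agent.N170.KG

section

variable {K : Type} [Field K] [NumberField K]

/-- the points `0, ∞, 1` -/
def al3 (K : Type) [Field K] : Fin 3 → Fin 2 → K := ![![0, 1], ![1, 0], ![1, 1]]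

/-- the conductor of an element -/
noncomputable def cond (x : K) : ℝ :=
  (∑ᶠ (v : HeightOneSpectrum (𝓞 K)) (_ : FinitePlace.mk v x < 1),
    Real.log (Ideal.absNorm v.asIdeal : ℝ)) / (Module.finrank ℚ K : ℝ)

/-- the height of an element -/
noncomputable def hgt (x : K) : ℝ := Height.logHeight₁ x / (Module.finrank ℚ K : ℝ)

theorem al3_ne (i : Fin 3) : al3 K i ≠ 0 := by
  intro h
  fin_cases i
  · exact one_ne_zero (congrFun h 1)
  · exact one_ne_zero (congrFun h 0)
  · exact one_ne_zero (congrFun h 0)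

theorem al3_dist (i j : Fin 3) (hij : i ≠ j) :
    al3 K i 0 * al3 K j 1 - al3 K i 1 * al3 K j 0 ≠ 0 := by
  fin_cases i <;> fin_cases j <;> first
    | exact absurd rfl hij
    | (simp [al3])

theorem off_iff (x : K) : Off1 (al3 K) (pt x) ↔ x ≠ 0 ∧ x ≠ 1 := by
  obtain ⟨h1, h2⟩ := pt_rep x
  have e0 : (pt x).rep 0 = x * (pt x).rep 1 := by
    rw [← div_eq_iff h1]
    exact h2
  constructor
  · intro h
    refine ⟨fun hx => ?_, fun hx => ?_⟩
    · refine h 0 ?_
      show (pt x).rep 0 * 1 - (pt x).rep 1 * 0 = 0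
      rw [e0, hx]; ring
    · refine h 2 ?_
      show (pt x).rep 0 * 1 - (pt x).rep 1 * 1 = 0
      rw [e0, hx]; ring
  · rintro ⟨hx0, hx1⟩ l
    fin_cases l
    · show (pt x).rep 0 * 1 - (pt x).rep 1 * 0 ≠ 0
      rw [e0]
      have := mul_ne_zero hx0 h1
      simpa using this
    · show (pt x).rep 0 * 0 - (pt x).rep 1 * 1 ≠ 0
      simpa using h1
    · show (pt x).rep 0 * 1 - (pt x).rep 1 * 1 ≠ 0
      rw [e0]
      have : (x - 1) * (pt x).rep 1 ≠ 0 := mul_ne_zero (sub_ne_zero.2 hx1) h1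
      intro h
      apply this
      linear_combination h

theorem hh_pt (x : K) : hh (pt x) = hgt x := by
  unfold hh hgt
  congr 1
  rw [Height.logHeight₁_eq_logHeight]
  obtain ⟨a, ha⟩ := Projectivization.exists_smul_eq_mk_rep K ![x, 1]
    (fun h => one_ne_zero (congrFun h 1))
  have h1 : (pt x).rep = (a : K) • ![x, 1] := ha.symm
  rw [h1]
  exact Height.logHeight_smul_eq_logHeight _ a.ne_zero

theorem aff_ne (x : K) : (aff x) ≠ 0 := aff_ne_zero x

/-- the truncated local height -/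
theorem min_lv (v : HeightOneSpectrum (𝓞 K)) (x : K) {a : Fin 2 → K} (ha : a ≠ 0)
    (h : x * a 1 - a 0 ≠ 0) :
    min (lv v a (pt x)) (Real.log (Ideal.absNorm v.asIdeal : ℝ) / (Module.finrank ℚ K : ℝ)) =
      (if fv v (x * a 1 - a 0) < max (fv v x) 1 * max (fv v (a 0)) (fv v (a 1)) then
        Real.log (Ideal.absNorm v.asIdeal : ℝ) else 0) / (Module.finrank ℚ K : ℝ) := by
  have hd : (0 : ℝ) < Module.finrank ℚ K := fin_pos (K := K)
  have h1 := lv_eq v a (pt_rep x).1
  rw [(pt_rep x).2] at h1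
  have h2 : lv v a (pt x) = lamA (fv v) (aff x) (a 0, a 1) / Module.finrank ℚ K := by
    rw [eq_div_iff hd.ne', h1]
    rfl
  have ha' : ((a 0, a 1) : K × K) ≠ 0 := by
    intro hcon
    rw [Prod.ext_iff] at hcon
    refine ha (funext fun i => ?_)
    fin_cases i
    · exact hcon.1
    · exact hcon.2
  have hw : (aff x).1 * ((a 0, a 1) : K × K).2 - (aff x).2 * ((a 0, a 1) : K × K).1 ≠ 0 := by
    show x * a 1 - 1 * a 0 ≠ 0
    rwa [one_mul]
  obtain ⟨m, hm⟩ := lamF_discrete v (aff_ne_zero x) ha' hw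
  have hN : 0 < Real.log (Nv v) := log_Nv_pos v
  have hpos : 0 < fv v (x * a 1 - a 0) := (fv v).pos h
  have hval : lamA (fv v) (aff x) (a 0, a 1) =
      Real.log (max (fv v x) 1 * max (fv v (a 0)) (fv v (a 1)) / fv v (x * a 1 - a 0)) := by
    unfold lamA
    show Real.log (max (fv v x) (fv v 1) * max (fv v (a 0)) (fv v (a 1)) /
      fv v (x * a 1 - 1 * a 0)) = _
    rw [map_one, one_mul]
  rw [h2, min_div_div_right hd.le]
  congr 1
  show min (lamA (fv v) (aff x) (a 0, a 1)) (Real.log (Nv v)) = if _ then Real.log (Nv v) else 0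
  by_cases hc : fv v (x * a 1 - a 0) < max (fv v x) 1 * max (fv v (a 0)) (fv v (a 1))
  · rw [if_pos hc]
    have h3 : 0 < lamA (fv v) (aff x) (a 0, a 1) := by
      rw [hval]
      exact Real.log_pos ((one_lt_div hpos).2 hc)
    rw [hm] at h3 ⊢
    have h4 : (1 : ℝ) ≤ m := by
      have : m ≠ 0 := by
        rintro rfl
        simp at h3
      exact_mod_cast Nat.one_le_iff_ne_zero.2 this
    exact min_eq_right (by nlinarith)
  · rw [if_neg hc]
    have h3 : lamA (fv v) (aff x) (a 0, a 1) ≤ 0 := by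
      rw [hval]
      refine Real.log_nonpos (div_nonneg ?_ hpos.le) ((div_le_one hpos).2 (not_lt.1 hc))
      exact mul_nonneg (le_max_of_le_right zero_le_one) (le_max_of_le_left ((fv v).nonneg _))
    have h4 : 0 ≤ lamA (fv v) (aff x) (a 0, a 1) := lamF_nonneg v (aff_ne_zero x) ha' hw
    rw [le_antisymm h3 h4]
    exact min_eq_left hN.le

theorem ncl_eq {x y : K} {a : Fin 2 → K} (ha : a ≠ 0) (h : x * a 1 - a 0 ≠ 0)
    (hy : ∀ v : HeightOneSpectrum (𝓞 K), fv v (x * a 1 - a 0) <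
      max (fv v x) 1 * max (fv v (a 0)) (fv v (a 1)) ↔ fv v y < 1) :
    ncl (∅ : Set (Pr K)) a (pt x) = cond y := by
  classical
  unfold ncl cond
  rw [div_eq_inv_mul, ← smul_eq_mul, smul_finsum]
  refine finsum_congr fun v => ?_
  rw [finsum_eq_if, if_pos (Set.notMem_empty v), min_lv v x ha h, finsum_eq_if, smul_eq_mul,
    ← div_eq_inv_mul]
  congr 1
  exact if_congr ((hy v).trans Iff.rfl) rfl rfl

theorem ncl0 {x : K} (hx : x ≠ 0) : ncl (∅ : Set (Pr K)) (al3 K 0) (pt x) = cond x := by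
  refine ncl_eq (al3_ne 0) ?_ fun v => ?_
  · show x * 1 - 0 ≠ 0
    simpa using hx
  · show fv v (x * 1 - 0) < max (fv v x) 1 * max (fv v 0) (fv v 1) ↔ _
    rw [mul_one, sub_zero, map_zero, map_one, max_eq_right (zero_le_one (α := ℝ)), mul_one, lt_max_iff]
    constructor
    · rintro (h | h)
      · exact absurd h (lt_irrefl _)
      · exact h
    · exact fun h => Or.inr h

theorem ncl1 {x : K} (hx : x ≠ 0) : ncl (∅ : Set (Pr K)) (al3 K 1) (pt x) = cond x⁻¹ := by
  refine ncl_eq (al3_ne 1) ?_ fun v => ?_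
  · show x * 0 - 1 ≠ 0
    simp
  · show fv v (x * 0 - 1) < max (fv v x) 1 * max (fv v 1) (fv v 0) ↔ _
    have e : x * 0 - 1 = -(1 : K) := by ring
    have hp : 0 < fv v x := (fv v).pos hx
    rw [e, (fv v).map_neg, map_zero, map_one, max_eq_left (zero_le_one (α := ℝ)), mul_one, lt_max_iff,
      map_inv₀, inv_lt_one₀ hp]
    constructor
    · rintro (h | h)
      · exact h
      · exact absurd h (lt_irrefl _)
    · exact fun h => Or.inl h

theorem ncl2 {x : K} (hx : x ≠ 1) : ncl (∅ : Set (Pr K)) (al3 K 2) (pt x) = cond (x - 1) := by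
  refine ncl_eq (al3_ne 2) ?_ fun v => ?_
  · show x * 1 - 1 ≠ 0
    rw [mul_one]
    exact sub_ne_zero.2 hx
  · show fv v (x * 1 - 1) < max (fv v x) 1 * max (fv v 1) (fv v 1) ↔ _
    rw [mul_one, map_one, max_self, mul_one, lt_max_iff]
    constructor
    · rintro (h | h)
      · by_contra hcon
        push Not at hcon
        have h1 : fv v x ≤ max (fv v (x - 1)) (fv v 1) := by
          have := fv_na v (x - 1) 1
          rwa [sub_add_cancel] at this
        rw [map_one, max_eq_left hcon] at h1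
        exact absurd h (not_lt.2 h1)
      · exact h
    · exact fun h => Or.inr h

/-- the sum of the three counting functions -/
theorem sum_ncl {x : K} (h0 : x ≠ 0) (h1 : x ≠ 1) :
    ∑ l, ncl (∅ : Set (Pr K)) (al3 K l) (pt x) = cond x + cond x⁻¹ + cond (x - 1) := by
  rw [Fin.sum_univ_three, ncl0 h0, ncl1 h0, ncl2 h1]

theorem exists_pt {P : Projectivization K (Fin 2 → K)} (h : Off1 (al3 K) P) : ∃ x, P = pt x := by
  have h1 : P.rep 1 ≠ 0 := by
    intro h2
    refine h 1 ?_
    show P.rep 0 * 0 - P.rep 1 * 1 = 0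
    rw [h2]; ring
  exact ⟨P.rep 0 / P.rep 1, rep_eq_of h1 (pt_rep _).1 (pt_rep _).2.symm⟩

end

end Pool.Agent.N906.QP.Aff
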