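import Pool.Agent.N906.KG.AllG
import Pool.Agent.N906.QP.Stm
import Pool.Agent.N654.QP_BIGQ
import Pool.Agent.N362.QP_UPU
import Pool.Agent.N901.QP_UPQ
import Pool.Agent.N575.QP_UPJ
import Pool.Agent.N711.QP_GLOWJ
import Pool.Agent.N570.QP_WINJ
import Pool.Agent.N415.QP_DSC
import Pool.Agent.N738.QP_LOWP
import Pool.Agent.N432.QP_LOJ
import Pool.Agent.N340.QP_FINQ
import Pool.Agent.N401.QP_FINJ
import Pool.Agent.N348.QP_FINT

/-!
# Project QP: all statements
-/

set_option autoImplicit false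

namespace Pool.Agent.N906.KG

open NumberField

section

variable (K : Type) [Field K] [NumberField K]

theorem winj_all : S_WINJ K := Pool.Agent.N570.QP.winj K (gupk_all K) (Pool.Agent.N711.QP.glowj K)

theorem lowp_all : S_LOWP K := Pool.Agent.N738.QP.lowp K (cellq_all K) (Pool.Agent.N415.QP.dsc K)

theorem loj_all : S_LOJ K := Pool.Agent.N432.QP.loj K (basq_all K) (cellq_all K) (lowp_all K) (winj_all K)

theorem upu_all (q : ℕ) (hq : 2 ≤ q) : S_UPU K q (6 / 7) :=
  Pool.Agent.N362.QP.upu K q (6 / 7) (by omega) (by norm_num) (basq_all K) (cellq_all K) (rank_all K)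
    (Pool.Agent.N654.QP.bigq K q hq)

theorem upu_three : S_UPU K 3 1 :=
  Pool.Agent.N362.QP.upu K 3 1 (by norm_num) le_rfl (basq_all K) (cellq_all K) (rank_all K)
    (Pool.Agent.N654.QP.bigq3 K)

theorem upj_all (q : ℕ) (hq : 2 ≤ q) : S_UPJ K q (6 / 7) :=
  Pool.Agent.N575.QP.upj K q (6 / 7) (by omega) (by norm_num) (basq_all K) (cellq_all K) (rank_all K)
    (Pool.Agent.N654.QP.bigq K q hq)

theorem upj_three : S_UPJ K 3 1 :=
  Pool.Agent.N575.QP.upj K 3 1 (by norm_num) le_rfl (basq_all K) (cellq_all K) (rank_all K)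
    (Pool.Agent.N654.QP.bigq3 K)

theorem finq_all (q : ℕ) (hq : 2 ≤ q) : S_FINQ K q (6 / 7) :=
  Pool.Agent.N340.QP.finq K q (6 / 7) (basq_all K)
    (Pool.Agent.N901.QP.upq K q (6 / 7) (by omega) (by norm_num) (upu_all K q hq) (cellq_all K)
      (basq_all K)) (loj_all K)

theorem finj_all (q : ℕ) (hq : 2 ≤ q) : S_FINJ K q (6 / 7) :=
  Pool.Agent.N401.QP.finj K q (6 / 7) (basq_all K) (upj_all K q hq) (loj_all K)

theorem finj_three : S_FINJ K 3 1 :=
  Pool.Agent.N401.QP.finj K 3 1 (basq_all K) (upj_three K) (loj_all K)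

end

theorem fint_all : S_FINT := Pool.Agent.N348.QP.fint (upj_three ℚ) (loj_all ℚ)

end Pool.Agent.N906.KG
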