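import Pool.Agent.N906.QP.All
import Pool.Agent.N906.QP.Aff
import Pool.Agent.N906.QP.StmL
import Pool.Agent.N896.QP_FINRQ
import Pool.Agent.N34.QP_DSCG
import Pool.Agent.N717.QP_LOWD
import Pool.Agent.N40.QP_LOJD
import Pool.Agent.N360.QP_FINL

/-!
# Project QP: order by the counting function, localized versions; in terms of the elements of `K`
-/

set_option autoImplicit false

namespace Pool.Agent.N906.QP.Aff

open NumberField IsDedekindDomain Finset Filter Topology Pool.Agent.H691R3 Pool.Agent.W223.AK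
open Pool.Agent.N906.KG Pool.Agent.N170.KG

variable (K : Type) [Field K] [NumberField K]

theorem finrq_three : S_FINRQ K 3 1 :=
  Pool.Agent.N896.QP.finrq K 3 1 (basq_all K) (upu_three K)
    (Pool.Agent.N901.QP.upq K 3 1 (by norm_num) (by norm_num) (upu_three K) (cellq_all K)
      (basq_all K)) (loj_all K) le_rfl

theorem lojd_all : S_LOJD K :=
  Pool.Agent.N40.QP.lojd K (basq_all K) (cellq_all K)
    (Pool.Agent.N717.QP.lowd K (cellq_all K) (Pool.Agent.N34.QP.dscg K)) (winj_all K)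

theorem finl_three : S_FINL K 3 1 :=
  Pool.Agent.N360.QP.finl K 3 1 (basq_all K)
    (Pool.Agent.N901.QP.upq K 3 1 (by norm_num) (by norm_num) (upu_three K) (cellq_all K)
      (basq_all K)) (upj_three K) (lojd_all K)

variable {K}

/-- the radical sum -/
noncomputable def nn (x : K) : ℝ := cond x + cond x⁻¹ + cond (x - 1)

/-- the elements ordered by the radical -/
def XR (M M' X : ℝ) : Set K :=
  {x | x ≠ 0 ∧ x ≠ 1 ∧ nn x ≤ Real.log X ∧ M * nn x < hgt x ∧ hgt x ≤ M' * nn x}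

theorem rv_eq (M M' X : ℝ) : RV (∅ : Set (Pr K)) (al3 K) M M' X = pt '' (XR (K := K) M M' X) := by
  ext P
  constructor
  · rintro ⟨h1, h2, h3, h4⟩
    obtain ⟨x, rfl⟩ := exists_pt h1
    obtain ⟨g0, g1⟩ := (off_iff x).1 h1
    rw [sum_ncl g0 g1] at h2
    rw [sum_ncl g0 g1, hh_pt] at h3 h4
    exact ⟨x, ⟨g0, g1, h2, h3, h4⟩, rfl⟩
  · rintro ⟨x, ⟨g0, g1, h2, h3, h4⟩, rfl⟩
    refine ⟨(off_iff x).2 ⟨g0, g1⟩, ?_, ?_, ?_⟩
    · rw [sum_ncl g0 g1]; exact h2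
    · rw [sum_ncl g0 g1, hh_pt]; exact h3
    · rw [sum_ncl g0 g1, hh_pt]; exact h4

variable (K) in
theorem xr_limit (M M' : ℝ) (h1 : 1 / 3 < M) (h2 : M < M') (h3 : M' < 1 / 2) :
    (∀ X : ℝ, (XR (K := K) M M' X).Finite) ∧
    Tendsto (fun X : ℝ => (Real.log ((XR (K := K) M M' X).ncard : ℝ) -
        Module.finrank ℚ K * (1 - M) * Real.log X) /
      √(Real.log X / Real.log (Real.log X))) atTop
      (𝓝 √(24 * (3 * M - 1) * Module.finrank ℚ K)) := by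
  have h4 : ((3 : ℕ) : ℝ) - 1 / M' < 1 := by
    have h5 : 0 < M' := by linarith
    have h6 : 2 < 1 / M' := by rw [lt_div_iff₀ h5]; linarith
    push_cast
    linarith
  obtain ⟨g1, g2⟩ := finrq_three K ∅ (al3 K) M M' Set.finite_empty le_rfl al3_ne al3_dist
    (by push_cast; exact h1) h2 h4
  refine ⟨fun X => ?_, ?_⟩
  · have h5 := g1 X
    rw [rv_eq] at h5
    exact Set.Finite.of_finite_image h5 pt_inj.injOn
  · have e1 : ∀ X : ℝ, (RV (∅ : Set (Pr K)) (al3 K) M M' X).ncard = (XR (K := K) M M' X).ncard := by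
      intro X
      rw [rv_eq, Set.ncard_image_of_injective _ pt_inj]
    simp only [e1] at g2
    have e2 : (1 : ℝ) - (((3 : ℕ) : ℝ) - 2) * M = 1 - M := by push_cast; ring
    have e3 : (8 : ℝ) * ((3 : ℕ) : ℝ) * (((3 : ℕ) : ℝ) * M - 1) * Module.finrank ℚ K =
        24 * (3 * M - 1) * Module.finrank ℚ K := by push_cast; ring
    rw [e2, e3] at g2
    exact g2

/-- near `z` at the infinite places -/
def NearK (z : InfinitePlace K → ℂ) (η : ℝ) (x : K) : Prop :=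
  ∀ w : InfinitePlace K, ‖w.embedding x - z w‖ < η

theorem near_pt (z : InfinitePlace K → ℂ) (η : ℝ) (x : K) : Near z η (pt x) ↔ NearK z η x := by
  unfold Near NearK
  rw [(pt_rep x).2]
  exact ⟨fun h => h.2, fun h => ⟨(pt_rep x).1, h⟩⟩

/-- sum law -/
def XQ (z : InfinitePlace K → ℂ) (η κ c B : ℝ) : Set K :=
  {x | x ≠ 0 ∧ x ≠ 1 ∧ Real.exp (hgt x) ≤ B ∧ NearK z η x ∧ nn x ≤ (3 - κ) * hgt x + c}

theorem xq_eq (z : InfinitePlace K → ℂ) (η κ c B : ℝ) :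
    ({P | P ∈ QV (∅ : Set (Pr K)) (al3 K) κ c B ∧ Near z η P} :
      Set (Projectivization K (Fin 2 → K))) = pt '' (XQ z η κ c B) := by
  ext P
  constructor
  · rintro ⟨⟨h1, h2, h3⟩, h4⟩
    obtain ⟨x, rfl⟩ := exists_pt h1
    obtain ⟨g0, g1⟩ := (off_iff x).1 h1
    rw [hh_pt] at h2
    rw [sum_ncl g0 g1, hh_pt] at h3
    push_cast at h3
    exact ⟨x, ⟨g0, g1, h2, (near_pt z η x).1 h4, h3⟩, rfl⟩
  · rintro ⟨x, ⟨g0, g1, h2, h4, h3⟩, rfl⟩
    refine ⟨⟨(off_iff x).2 ⟨g0, g1⟩, ?_, ?_⟩, (near_pt z η x).2 h4⟩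
    · rw [hh_pt]; exact h2
    · rw [sum_ncl g0 g1, hh_pt]
      push_cast
      exact h3

/-- joint law -/
def XJ (z : InfinitePlace K → ℂ) (η : ℝ) (κ : Fin 3 → ℝ) (c B : ℝ) : Set K :=
  {x | x ≠ 0 ∧ x ≠ 1 ∧ Real.exp (hgt x) ≤ B ∧ NearK z η x ∧ cond x ≤ (1 - κ 0) * hgt x + c ∧
    cond x⁻¹ ≤ (1 - κ 1) * hgt x + c ∧ cond (x - 1) ≤ (1 - κ 2) * hgt x + c}

theorem xj_eq (z : InfinitePlace K → ℂ) (η : ℝ) (κ : Fin 3 → ℝ) (c B : ℝ) :
    ({P | P ∈ JV (∅ : Set (Pr K)) (al3 K) κ c B ∧ Near z η P} :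
      Set (Projectivization K (Fin 2 → K))) = pt '' (XJ z η κ c B) := by
  ext P
  constructor
  · rintro ⟨⟨h1, h2, h3⟩, h4⟩
    obtain ⟨x, rfl⟩ := exists_pt h1
    obtain ⟨g0, g1⟩ := (off_iff x).1 h1
    rw [hh_pt] at h2
    have k0 := h3 0
    have k1 := h3 1
    have k2 := h3 2
    rw [ncl0 g0, hh_pt] at k0
    rw [ncl1 g0, hh_pt] at k1
    rw [ncl2 g1, hh_pt] at k2
    exact ⟨x, ⟨g0, g1, h2, (near_pt z η x).1 h4, k0, k1, k2⟩, rfl⟩
  · rintro ⟨x, ⟨g0, g1, h2, h4, k0, k1, k2⟩, rfl⟩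
    refine ⟨⟨(off_iff x).2 ⟨g0, g1⟩, ?_, fun l => ?_⟩, (near_pt z η x).2 h4⟩
    · rw [hh_pt]; exact h2
    · fin_cases l
      · show ncl _ (al3 K 0) (pt x) ≤ (1 - κ 0) * hh (pt x) + c
        rw [ncl0 g0, hh_pt]; exact k0
      · show ncl _ (al3 K 1) (pt x) ≤ (1 - κ 1) * hh (pt x) + c
        rw [ncl1 g0, hh_pt]; exact k1
      · show ncl _ (al3 K 2) (pt x) ≤ (1 - κ 2) * hh (pt x) + c
        rw [ncl2 g1, hh_pt]; exact k2

theorem xq_limit (z : InfinitePlace K → ℂ) (η κ c : ℝ) (hz : ∀ w, w.IsReal → (z w).im = 0)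
    (hη : 0 < η) (h1 : 0 < κ) (h2 : κ < 1) :
    (∀ B : ℝ, (XQ z η κ c B).Finite) ∧
    Tendsto (fun B : ℝ => (Real.log ((XQ z η κ c B).ncard : ℝ) -
        Module.finrank ℚ K * (2 - κ) * Real.log B) /
      √(Real.log B / Real.log (Real.log B))) atTop (𝓝 √(24 * κ * Module.finrank ℚ K)) := by
  have g := (finl_three K ∅ (al3 K) c z η Set.finite_empty (by norm_num) al3_ne al3_dist hz hη).1
    κ h1 h2 h2
  have f := (Pool.Agent.N340.QP.finq K 3 1 (basq_all K)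
    (Pool.Agent.N901.QP.upq K 3 1 (by norm_num) (by norm_num) (upu_three K) (cellq_all K)
      (basq_all K)) (loj_all K) ∅ (al3 K) κ c Set.finite_empty (by norm_num) al3_ne al3_dist
      h1 h2 h2).1
  refine ⟨fun B => ?_, ?_⟩
  · have h5 : ({P | P ∈ QV (∅ : Set (Pr K)) (al3 K) κ c B ∧ Near z η P} :
      Set (Projectivization K (Fin 2 → K))).Finite := (f B).subset fun P hP => hP.1
    rw [xq_eq] at h5
    exact Set.Finite.of_finite_image h5 pt_inj.injOn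
  · simp only [xq_eq, Set.ncard_image_of_injective _ pt_inj] at g
    have e3 : (8 : ℝ) * ((3 : ℕ) : ℝ) * κ * Module.finrank ℚ K =
        24 * κ * Module.finrank ℚ K := by push_cast; ring
    rw [e3] at g
    exact g

theorem xj_limit (z : InfinitePlace K → ℂ) (η : ℝ) (κ : Fin 3 → ℝ) (c : ℝ)
    (hz : ∀ w, w.IsReal → (z w).im = 0) (hη : 0 < η) (h0 : ∀ l, 0 ≤ κ l) (h1 : 0 < ∑ l, κ l)
    (h2 : ∑ l, κ l < 1) :
    (∀ B : ℝ, (XJ z η κ c B).Finite) ∧
    Tendsto (fun B : ℝ => (Real.log ((XJ z η κ c B).ncard : ℝ) -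
        Module.finrank ℚ K * (2 - ∑ l, κ l) * Real.log B) /
      √(Real.log B / Real.log (Real.log B))) atTop
      (𝓝 (∑ l, √(8 * κ l * Module.finrank ℚ K))) := by
  have g := (finl_three K ∅ (al3 K) c z η Set.finite_empty (by norm_num) al3_ne al3_dist hz hη).2
    κ h0 h1 h2 h2
  have f := (finj_three K ∅ (al3 K) κ c Set.finite_empty (by norm_num) al3_ne al3_dist
    h0 h1 h2 h2).1
  refine ⟨fun B => ?_, ?_⟩
  · have h5 : ({P | P ∈ JV (∅ : Set (Pr K)) (al3 K) κ c B ∧ Near z η P} :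
      Set (Projectivization K (Fin 2 → K))).Finite := (f B).subset fun P hP => hP.1
    rw [xj_eq] at h5
    exact Set.Finite.of_finite_image h5 pt_inj.injOn
  · simp only [xj_eq, Set.ncard_image_of_injective _ pt_inj] at g
    exact g

end Pool.Agent.N906.QP.Aff
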