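import Pool.Agent.N906.KG.AllG
import Pool.Agent.N906.QP.Stm
import Pool.Agent.N906.RS.All
import Pool.Agent.N654.QP_BIGQ
import Pool.Agent.N362.QP_UPU
import Pool.Agent.N521.QP_FINR

/-!
# Project QP: the abc triples ordered by their radical
-/

set_option autoImplicit false

namespace Pool.Agent.N906.KG

theorem upu_rat : S_UPU ℚ 3 1 :=
  Pool.Agent.N362.QP.upu ℚ 3 1 (by norm_num) le_rfl (basq_all ℚ) (cellq_all ℚ) (rank_all ℚ)
    (Pool.Agent.N654.QP.bigq3 ℚ)

theorem finr_all : S_FINR := Pool.Agent.N521.QP.finr upu_rat (Pool.Agent.N906.RS.lo_all ℚ)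

end Pool.Agent.N906.KG
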